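import Pool.Agent.H14.TA.Stmts

/-!
# Modules STEP, WM and FIN (helper17, MP_56c03d_al)
-/

namespace TA

section
variable {P' : Type} [Group P'] {len : P' → ℕ} {Pz R : Fin 3 → Subgroup P'}
  {W : Set P'} {N : Subgroup P'}

theorem le_nextN : N ≤ nextN len Pz R W N := fun _ hn =>
  Subgroup.subset_closure (Or.inl hn)

theorem rot_mem_nextN {Y : Fin 3 × P'} {r : P'} (hY : Att len Pz W Y) (hr : MemRY R Y r) :
    r ∈ nextN len Pz R W N :=
  Subgroup.subset_closure (Or.inr ⟨Y, hY, hr⟩)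

theorem sub_nextW : W ⊆ nextW len Pz R W N := fun x hx =>
  ⟨1, (nextN len Pz R W N).one_mem, Or.inl (by simpa using hx)⟩

/-- A residue meeting a translate of `W` is contained in the next set. -/
theorem step_full (hM : Mill len Pz R W N) (Y : Fin 3 × P')
    (h : ∃ σ ∈ nextN len Pz R W N, ∃ x ∈ W, InR Pz Y (σ * x)) :
    (∀ x, InR Pz Y x → x ∈ nextW len Pz R W N) ∧
      ∀ r, MemRY R Y r → r ∈ nextN len Pz R W N := by
  obtain ⟨σ, hσ, x, hx, hxY⟩ := h
  have hmeet : Meets Pz W (Y.1, σ⁻¹ * Y.2) := by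
    refine ⟨x, hx, ?_⟩
    simpa [InR, mul_assoc] using hxY
  have key : ∀ y, InR Pz Y y → InR Pz (Y.1, σ⁻¹ * Y.2) (σ⁻¹ * y) := by
    intro y hy
    simpa [InR, mul_assoc] using hy
  have key2 : ∀ r, MemRY R Y r → MemRY R (Y.1, σ⁻¹ * Y.2) (σ⁻¹ * r * σ) := by
    intro r hr
    simpa [MemRY, mul_assoc] using hr
  have key3 : ∀ r, σ⁻¹ * r * σ ∈ nextN len Pz R W N → r ∈ nextN len Pz R W N := by
    intro r hr
    have := (nextN len Pz R W N).mul_mem ((nextN len Pz R W N).mul_mem hσ hr)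
      ((nextN len Pz R W N).inv_mem hσ)
    simpa [mul_assoc] using this
  rcases hM.dich _ hmeet with ⟨h1, h2⟩ | h1
  · refine ⟨fun y hy => ⟨σ, hσ, Or.inl (h1 _ (key y hy))⟩, fun r hr => ?_⟩
    exact key3 r (le_nextN (h2 _ (key2 r hr)))
  · refine ⟨fun y hy => ⟨σ, hσ, Or.inr ⟨_, h1, key y hy⟩⟩, fun r hr => ?_⟩
    exact key3 r (rot_mem_nextN h1 (key2 r hr))

end

theorem step_of (h1 : S_DIAM) (h2 : S_CONVW) : S_STEP := by
  intro P' _ len Pz R ρ hS hR W N hM
  refine ⟨⟨?_, ?_, ?_, ?_⟩, sub_nextW, le_nextN, ?_⟩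
  · exact sub_nextW hM.one
  · exact h2 P' len Pz R ρ hS hR W N hM
  · rintro n hn x ⟨σ, hσ, hx⟩
    refine ⟨n * σ, (nextN len Pz R W N).mul_mem hn hσ, ?_⟩
    have : (n * σ)⁻¹ * (n * x) = σ⁻¹ * x := by group
    rw [this]
    exact hx
  · intro Y hY
    by_cases h : ∃ σ ∈ nextN len Pz R W N, ∃ x ∈ W, InR Pz Y (σ * x)
    · exact Or.inl (step_full hM Y h)
    · refine Or.inr ⟨hY, ?_⟩
      push Not at h
      exact h1 P' len Pz R ρ hS hR W N hM Y h
  · rintro Y ⟨x, hx, hxY⟩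
    exact step_full hM Y ⟨1, (nextN len Pz R W N).one_mem, x, hx, by simpa using hxY⟩

/-- The sequence of windmills. -/
def mseq {P' : Type} [Group P'] (len : P' → ℕ) (Pz R : Fin 3 → Subgroup P') :
    ℕ → Set P' × Subgroup P'
  | 0 => ({1}, ⊥)
  | n + 1 => (nextW len Pz R (mseq len Pz R n).1 (mseq len Pz R n).2,
      nextN len Pz R (mseq len Pz R n).1 (mseq len Pz R n).2)

theorem wm_of (h1 : S_STEP) (h2 : S_NCK) : S_WM := by
  intro P' _ len Pz R ρ hS hR w hw hw1
  have hmill : ∀ n, Mill len Pz R (mseq len Pz R n).1 (mseq len Pz R n).2 := by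
    intro n
    induction n with
    | zero =>
      refine ⟨rfl, ?_, ?_, ?_⟩
      · rintro x hx y hy m hm
        rw [mseq, Set.mem_singleton_iff] at hx hy
        subst hx hy
        rw [mseq, Set.mem_singleton_iff]
        have h0 : len (1 : P') = 0 := (hS.eq_one 1).2 rfl
        rw [Btw] at hm
        simp only [inv_one, one_mul, mul_one, h0] at hm
        exact (hS.eq_one m).1 (by omega)
      · rintro n hn x hx
        rw [mseq, Set.mem_singleton_iff] at hx ⊢
        rw [mseq, Subgroup.mem_bot] at hn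
        rw [hn, hx, mul_one]
      · intro Y hY
        refine Or.inr ⟨hY, ?_⟩
        rintro x hx y hy _ _
        rw [mseq, Set.mem_singleton_iff] at hx hy
        rw [hx, hy, inv_mul_cancel, (hS.eq_one 1).2 rfl]
        omega
    | succ n ih => exact (h1 P' len Pz R ρ hS hR _ _ ih).1
  have hstep : ∀ n Y, Meets Pz (mseq len Pz R n).1 Y →
      (∀ x, InR Pz Y x → x ∈ (mseq len Pz R (n + 1)).1) ∧
        ∀ r, MemRY R Y r → r ∈ (mseq len Pz R (n + 1)).2 := fun n =>
    (h1 P' len Pz R ρ hS hR _ _ (hmill n)).2.2.2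
  have hmono : Monotone fun n => (mseq len Pz R n).2 :=
    monotone_nat_of_le_succ fun n => (h1 P' len Pz R ρ hS hR _ _ (hmill n)).2.2.1
  have hmem : ∀ n h z p, h ∈ (mseq len Pz R n).1 → p ∈ Pz z →
      h * p ∈ (mseq len Pz R (n + 1)).1 := by
    intro n h z p hh hp
    apply (hstep n (z, h) ⟨h, hh, by simp [InR, (Pz z).one_mem]⟩).1
    simpa [InR] using hp
  have hreach : ∀ g : P', ∃ n, g ∈ (mseq len Pz R n).1 := by
    intro g
    have hg := hS.gen g
    have hall : (∀ h, (∃ n, h ∈ (mseq len Pz R n).1) → ∃ n, h * g ∈ (mseq len Pz R n).1) ∧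
        (∀ h, (∃ n, h ∈ (mseq len Pz R n).1) → ∃ n, h * g⁻¹ ∈ (mseq len Pz R n).1) := by
      induction hg using Subgroup.closure_induction with
      | mem g hg =>
        obtain ⟨z, hz⟩ := Set.mem_iUnion.1 hg
        refine ⟨fun h ⟨n, hn⟩ => ⟨n + 1, hmem n h z g hn hz⟩, fun h ⟨n, hn⟩ =>
          ⟨n + 1, hmem n h z g⁻¹ hn ((Pz z).inv_mem hz)⟩⟩
      | one => simp
      | mul g k _ _ hg hk =>
        refine ⟨fun h hh => ?_, fun h hh => ?_⟩
        · rw [← mul_assoc]
          exact hk.1 _ (hg.1 _ hh)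
        · rw [mul_inv_rev, ← mul_assoc]
          exact hg.2 _ (hk.2 _ hh)
      | inv g _ hg => exact ⟨hg.2, by simpa using hg.1⟩
    simpa using hall.1 1 ⟨0, rfl⟩
  have hN : ∃ n, w ∈ (mseq len Pz R n).2 := by
    induction hw using Subgroup.closure_induction with
    | mem w hw =>
      obtain ⟨Y, hY⟩ := hw
      obtain ⟨n, hn⟩ := hreach Y.2
      exact ⟨n + 1, (hstep n Y ⟨Y.2, hn, by simp [InR, (Pz Y.1).one_mem]⟩).2 w hY⟩
    | one => exact ⟨0, Subgroup.one_mem _⟩
    | mul g k _ _ hg hk =>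
      by_cases hg1 : g = 1
      · subst hg1
        rw [one_mul] at hw1 ⊢
        exact hk hw1
      · by_cases hk1 : k = 1
        · subst hk1
          rw [mul_one] at hw1 ⊢
          exact hg hw1
        · obtain ⟨n, hn⟩ := hg hg1
          obtain ⟨m, hm⟩ := hk hk1
          exact ⟨max n m, Subgroup.mul_mem _ (hmono (le_max_left n m) hn)
            (hmono (le_max_right n m) hm)⟩
    | inv g _ hg =>
      obtain ⟨n, hn⟩ := hg (by simpa using hw1)
      exact ⟨n, Subgroup.inv_mem _ hn⟩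
  classical
  have hf := Nat.find_spec hN
  have hmin := fun m => Nat.find_min (m := m) hN
  cases hn : Nat.find hN with
  | zero =>
    rw [hn] at hf
    exact absurd (Subgroup.mem_bot.1 hf) hw1
  | succ m =>
    rw [hn] at hf
    exact h2 P' len Pz R ρ hS hR _ _ (hmill m) w hf (hmin m (by omega))

theorem finite_lists {α : Type*} (S : Set α) (hS : S.Finite) (n : ℕ) :
    {l : List α | l.length ≤ n ∧ ∀ x ∈ l, x ∈ S}.Finite := by
  induction n with
  | zero =>
    apply (Set.finite_singleton ([] : List α)).subset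
    rintro l ⟨hl, -⟩
    simpa using hl
  | succ n ih =>
    apply ((Set.finite_singleton ([] : List α)).union
      (Set.Finite.image2 (fun a l => a :: l) hS ih)).subset
    rintro l ⟨hl, hx⟩
    cases l with
    | nil => left; rfl
    | cons a l =>
      right
      exact ⟨a, hx a (by simp), l, ⟨by simpa using hl, fun x hxl => hx x (by simp [hxl])⟩, rfl⟩

theorem exists_list_of_closure {I Γ : Type*} [Group Γ] (γ : I → Γ)
    (hgen : Subgroup.closure (Set.range γ) = ⊤) (g : Γ) : ∃ l : List (I × ℤ), ev γ l = g := by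
  have hg : g ∈ Subgroup.closure (Set.range γ) := by rw [hgen]; trivial
  induction hg using Subgroup.closure_induction with
  | mem g hg =>
    obtain ⟨y, rfl⟩ := hg
    exact ⟨[(y, 1)], by simp⟩
  | one => exact ⟨[], rfl⟩
  | mul g k _ _ hg hk =>
    obtain ⟨l, rfl⟩ := hg
    obtain ⟨m, rfl⟩ := hk
    exact ⟨l ++ m, by simp⟩
  | inv g _ hg =>
    obtain ⟨l, rfl⟩ := hg
    exact ⟨linv l, by simp⟩

theorem fin_of (h : S_CNT) : S_FIN := by
  intro κ hκ σ hσ R
  have hfin := finite_lists {s : Fin 3 × ℤ | s.2.natAbs ≤ R * (CC κ R + 1) + 1 + R} (by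
    apply ((Set.finite_univ (α := Fin 3)).prod
      (Set.finite_Icc (-((R * (CC κ R + 1) + 1 + R : ℕ) : ℤ))
        ((R * (CC κ R + 1) + 1 + R : ℕ) : ℤ))).subset
    rintro ⟨x, e⟩ he
    refine ⟨trivial, ?_⟩
    change e.natAbs ≤ R * (CC κ R + 1) + 1 + R at he
    simp only [Set.mem_Icc]
    omega) (R * (CC κ R + 1) + 1)
  apply (hfin.image (ev (gen κ))).subset
  intro g hg
  obtain ⟨l0, hl0⟩ := exists_list_of_closure (gen κ) (G_closure κ) g
  obtain ⟨l, hl, hgeo, -⟩ := exists_geo (gen κ) l0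
  rw [hl0] at hl
  refine ⟨l, ?_, hl⟩
  have := h κ hκ σ hσ l hgeo R (by rw [hl]; exact hg)
  exact this

end TA
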